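import Mathlib
import Pool.Agent.Q34.C4

set_option autoImplicit false

namespace Pool.Agent.Results.MP_c42a9c_nt.Full

open Finset Pool.Agent.Helper857.Pad Pool.Agent.Helper857.W Pool.Agent.Q34
open scoped Nat

/-- rising factorial `(x)_k = x (x+1) ... (x+k-1)` -/
def poch (x : ℚ) (k : ℕ) : ℚ := ∏ i ∈ range k, (x + i)

/-- `A_r(p) = ∑_{k=0}^{(p^r-1)/2} (4k+1) (1/2)_k^4 / k!^4` -/
def A (p r : ℕ) : ℚ :=
  ∑ k ∈ range ((p ^ r - 1) / 2 + 1), (4 * (k : ℚ) + 1) * poch (1 / 2) k ^ 4 / ((k ! : ℕ) : ℚ) ^ 4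

/-- `B_r(p) = ∑_{k=0}^{p^r-1} (3k+1) (1/2)_k^3 / k!^3 * 2^{2k}` -/
def B (p r : ℕ) : ℚ :=
  ∑ k ∈ range (p ^ r - 1 + 1),
    (3 * (k : ℚ) + 1) * poch (1 / 2) k ^ 3 / ((k ! : ℕ) : ℚ) ^ 3 * 2 ^ (2 * k)

/-- For every odd prime `p` and every `r ≥ 1`, `A_r(p) ≡ B_r(p) (mod p^{r+4})`. -/
theorem result (p r : ℕ) (hp : p.Prime) (hodd : p ≠ 2) (hr : 1 ≤ r) :
    Cong p (r + 4) (A p r) (B p r) := by
  have : Fact p.Prime := ⟨hp⟩
  have hodd : p % 2 = 1 := by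
    rcases hp.eq_two_or_odd with h | h <;> omega
  have hpa : (p ^ r) % 2 = 1 := Nat.odd_iff.mp ((Nat.odd_iff.mpr hodd).pow)
  obtain ⟨R, hR⟩ : ∃ R, 2 * R + 1 = p ^ r := ⟨p ^ r / 2, by omega⟩
  have hA : A p r = A4.S R := by
    unfold A A4.S
    rw [show (p ^ r - 1) / 2 = R by omega]
    refine sum_congr rfl fun k _ => ?_
    rw [A4.be_rf]
    unfold poch
    ring
  have hB : B p r = C4.T (2 * R + 1) := by
    unfold B C4.T
    rw [show p ^ r - 1 + 1 = 2 * R + 1 by omega]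
    refine sum_congr rfl fun k _ => ?_
    rw [A4.be_rf, pow_mul]
    unfold poch
    norm_num
    ring
  have key := C4.compare (p := p) hr hR
  apply Red.cong_of_I
  rw [hA, hB]
  have hP : ((2 * R + 1 : ℕ) : ℚ) = (p : ℚ) ^ r := by rw [hR]; push_cast; ring
  have hP0 : (p : ℚ) ^ r ≠ 0 := pow_ne_zero _ (by exact_mod_cast hp.ne_zero)
  rw [hP] at key
  have k2 := (I.p_pow (p := p) r).mul key
  have e : (p : ℚ) ^ r * (A4.S R / (p : ℚ) ^ r - C4.T (2 * R + 1) / (p : ℚ) ^ r) =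
      A4.S R - C4.T (2 * R + 1) := by
    field_simp
  rwa [e] at k2

end Pool.Agent.Results.MP_c42a9c_nt.Full
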